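import Pool.Agent.P.MP_8e1b3573_nt.Own

set_option autoImplicit false

namespace Pool.Agent.P.MP_8e1b3573_nt

open Finset Nat Filter

/-- The binary length, plus a margin. -/
def LL (X : ℕ) : ℕ := Nat.log 2 X + 2

theorem two_mul_le_pow (X : ℕ) : 2 * X ≤ 2 ^ LL X := by
  have h := Nat.lt_pow_succ_log_self (b := 2) (by norm_num) X
  unfold LL
  rw [pow_succ] at h
  rw [pow_add]
  omega

theorem tendsto_log : Tendsto (Nat.log 2) atTop atTop := by
  refine tendsto_atTop_atTop.2 fun b => ⟨2 ^ b, fun X hX => ?_⟩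
  exact Nat.le_log_of_pow_le (by norm_num) hX

theorem ev_LL (C : ℕ) : ∀ᶠ X : ℕ in atTop, C ≤ LL X :=
  (tendsto_log.eventually_ge_atTop C).mono fun _ h => h.trans (Nat.le_add_right _ _)

theorem ev_pow (N : ℕ) : ∀ᶠ X : ℕ in atTop, LL X ^ N ≤ X := by
  have h1 := tendsto_pow_const_div_const_pow_of_one_lt N (r := 2) (by norm_num)
  have h2 := (h1.comp (tendsto_add_atTop_nat 2)).eventually_le_const
    (show (0 : ℝ) < 1 / 4 by norm_num)
  filter_upwards [tendsto_log.eventually h2, eventually_ge_atTop 1] with X h hX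
  simp only [Function.comp] at h
  rw [div_le_iff₀ (by positivity), pow_add] at h
  have h3 : ((LL X ^ N : ℕ) : ℝ) ≤ ((2 ^ Nat.log 2 X : ℕ) : ℝ) := by
    unfold LL
    push_cast at h ⊢
    linarith
  exact (Nat.cast_le.1 h3).trans (Nat.pow_log_le_self 2 (by omega))

theorem le_pi {X : ℕ} (h2 : 2 ≤ X) (h : LL X ^ 2 ≤ X) : X ≤ 2 * LL X * Nat.primeCounting X := by
  have h1 := Chebyshev.pi_ge X
  have hL : 2 ≤ LL X := Nat.le_add_left _ _
  have hXR : (2 : ℝ) ≤ X := by exact_mod_cast h2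
  have hl : 0 < Real.log X := Real.log_pos (by linarith)
  have hl2 : 0 < Real.log 2 := Real.log_pos (by norm_num)
  have h3 : (2 * X : ℝ) ≤ 2 ^ LL X := by exact_mod_cast two_mul_le_pow X
  have h4 : Real.log (X + 1) ≤ LL X * Real.log 2 := by
    rw [← Real.log_pow]
    exact Real.log_le_log (by linarith) (by linarith)
  have h5 : Real.log X ≤ LL X * Real.log 2 :=
    (Real.log_le_log (by linarith) (by linarith)).trans h4
  have h6 : (2 * LL X : ℝ) ≤ X := by
    have : 2 * LL X ≤ X := le_trans (by nlinarith) h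
    exact_mod_cast this
  rw [div_le_iff₀ hl] at h1
  have h7 := mul_le_mul_of_nonneg_left h5 (Nat.cast_nonneg (α := ℝ) (Nat.primeCounting X))
  have h8 : (X : ℝ) * Real.log 2 ≤ (2 * LL X * Nat.primeCounting X) * Real.log 2 := by
    nlinarith
  exact_mod_cast le_of_mul_le_mul_right h8 hl2

theorem pi_add_le (X R : ℕ) : Nat.primeCounting (X + R) ≤ Nat.primeCounting X + R := by
  unfold Nat.primeCounting Nat.primeCounting'
  rw [show X + R + 1 = X + 1 + R by ring, Nat.count_add]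
  exact Nat.add_le_add_left (Nat.count_le _) _

theorem log_big {X n A : ℕ} (hL : 4 * 4 ^ A ≤ LL X) (h : LL X ^ 4 ≤ X) (hn : X / LL X ^ 2 < n) :
    (LL X : ℝ) ^ A ≤ Real.log n ^ (A + 1) := by
  have hL2 : 2 ≤ LL X := Nat.le_add_left _ _
  have h4 : 1 ≤ 4 ^ A := Nat.one_le_pow _ _ (by norm_num)
  have hX0 : X ≠ 0 := by
    have : 0 < LL X ^ 4 := by positivity
    omega
  have h1 : LL X ^ 2 ≤ X / LL X ^ 2 := by
    rw [Nat.le_div_iff_mul_le (by positivity), ← pow_add]; exact h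
  have h2 : X < n * LL X ^ 2 := (Nat.div_lt_iff_lt_mul (by positivity)).1 hn
  have h3 : 2 ^ Nat.log 2 X ≤ n ^ 2 := by
    have := Nat.pow_log_le_self 2 hX0
    have h5 : n * LL X ^ 2 ≤ n * n := Nat.mul_le_mul_left _ (by omega)
    rw [pow_two]
    omega
  have h5 : (Nat.log 2 X : ℝ) * Real.log 2 ≤ 2 * Real.log n := by
    have h6 : ((2 : ℝ) ^ Nat.log 2 X) ≤ (n : ℝ) ^ 2 := by exact_mod_cast h3
    have h7 := Real.log_le_log (by positivity) h6
    rw [Real.log_pow, Real.log_pow] at h7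
    exact_mod_cast h7
  have h6 : (LL X : ℝ) = Nat.log 2 X + 2 := by unfold LL; push_cast; ring
  have h7 : (4 * 4 ^ A : ℝ) ≤ LL X := by exact_mod_cast hL
  by_cases hA : A = 0
  · subst hA
    have := Real.log_two_gt_d9
    simp only [pow_zero, zero_add, pow_one] at h7 ⊢
    have h8 : 4 * 4 ^ 0 ≤ LL X := hL
    have h9 : (3 : ℝ) ≤ n := by
      have : 3 ≤ n := by nlinarith
      exact_mod_cast this
    rw [Real.le_log_iff_exp_le (by linarith)]
    exact Real.exp_one_lt_d9.le.trans (by linarith)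
  have h8 : (4 : ℝ) ≤ 4 ^ A := le_self_pow₀ (by norm_num) hA
  have h9 : (LL X : ℝ) ≤ 4 * Real.log n := by
    have := Real.log_two_gt_d9
    nlinarith
  have h10 : (4 : ℝ) ^ A ≤ Real.log n := by linarith
  calc (LL X : ℝ) ^ A ≤ (4 * Real.log n) ^ A := pow_le_pow_left₀ (by positivity) h9 A
    _ = 4 ^ A * Real.log n ^ A := mul_pow _ _ _
    _ ≤ Real.log n * Real.log n ^ A :=
        mul_le_mul_of_nonneg_right h10 (pow_nonneg (by linarith) _)
    _ = Real.log n ^ (A + 1) := by ring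

open Classical in
/-- The statement for all integers `n`. -/
theorem main (K : ℕ) (hK : 1 ≤ K) (δ : ℝ) (hδ : 0 < δ) : ∀ᶠ X : ℕ in atTop,
    (((Icc 1 X).filter fun m : ℕ => ∀ q : ℕ, q.Prime → q ∣ (m - 1)! + 1 →
      (q : ℝ) ≤ m + m / Real.log m ^ (5 * K + 10)).card : ℝ) ≤
      (1 / (K + 1) + δ) * Nat.primeCounting X := by
  filter_upwards [ev_LL (4325376 * K ^ 2), ev_LL (4 * 4 ^ (5 * K + 9)), ev_LL ⌈24 / δ⌉₊,
    ev_pow (10 * K + 7)] with X H1 H2 H3 H4
  obtain ⟨L, hL⟩ : ∃ L, L = LL X := ⟨_, rfl⟩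
  have hlog := fun n => log_big (X := X) (n := n) H2
  have hpi := le_pi (X := X)
  have h2X := two_mul_le_pow X
  rw [← hL] at H1 H2 H3 H4 hlog hpi h2X
  have hL4 : 4 ≤ L := le_trans (Nat.le_mul_of_pos_right _ (by positivity)) H2
  have hpw : ∀ j, j ≤ 10 * K + 7 → L ^ j ≤ X := fun j hj =>
    (Nat.pow_le_pow_right (by omega) hj).trans H4
  have hX2 : 2 ≤ X := le_trans (by omega) ((pow_one L).ge.trans (hpw 1 (by omega)))
  replace hpi := hpi hX2 (hpw 2 (by omega))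
  obtain ⟨x0, hx0⟩ : ∃ x0, x0 = X / L ^ 2 := ⟨_, rfl⟩
  obtain ⟨R, hR⟩ : ∃ R, R = X / L ^ (5 * K + 9) + 1 := ⟨_, rfl⟩
  obtain ⟨P, hP⟩ : ∃ P, P = Nat.primeCounting X := ⟨_, rfl⟩
  rw [← hP] at hpi ⊢
  have hL2 : 0 < L ^ 2 := by positivity
  have hLA : 0 < L ^ (5 * K + 9) := by positivity
  have hx1 : L ^ (10 * K + 5) ≤ x0 := by
    rw [hx0, Nat.le_div_iff_mul_le hL2, ← pow_add]; exact H4
  have hx2 : x0 * L ^ 2 ≤ X := hx0 ▸ Nat.div_mul_le_self _ _
  have hx3 : X ≤ 2 * (x0 * L ^ 2) := by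
    have h1 : X < (x0 + 1) * L ^ 2 := (Nat.div_lt_iff_lt_mul hL2).1 (by omega)
    have h2 : 1 ≤ x0 := le_trans (Nat.one_le_pow _ _ (by omega)) hx1
    have h3 : L ^ 2 ≤ x0 * L ^ 2 := Nat.le_mul_of_pos_left _ h2
    rw [add_mul] at h1
    omega
  have hR1 : R * L ^ (5 * K + 9) ≤ 2 * X := by
    have h1 := Nat.div_mul_le_self X (L ^ (5 * K + 9))
    have h2 := hpw (5 * K + 9) (by omega)
    rw [hR, add_mul]
    omega
  have hR2 : R * L ^ 2 ≤ 2 * X :=
    (Nat.mul_le_mul_left _ (Nat.pow_le_pow_right (by omega) (by omega))).trans hR1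
  have hx4 : x0 * L ≤ 2 * P := by
    refine Nat.le_of_mul_le_mul_right (c := L) ?_ (by omega)
    calc x0 * L * L = x0 * L ^ 2 := by ring
      _ ≤ 2 * L * P := hx2.trans hpi
      _ = 2 * P * L := by ring
  have hR3 : R * L ≤ 4 * P := by
    refine Nat.le_of_mul_le_mul_right (c := L) ?_ (by omega)
    calc R * L * L = R * L ^ 2 := by ring
      _ ≤ 2 * (2 * L * P) := hR2.trans (Nat.mul_le_mul_left 2 hpi)
      _ = 4 * P * L := by ring
  have hR4 : R ≤ P := by
    have : R * 4 ≤ R * L := Nat.mul_le_mul_left _ hL4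
    omega
  have hR5 : R ≤ X := by
    have h1 : 4 ^ 2 ≤ L ^ 2 := Nat.pow_le_pow_left hL4 2
    have : R * 4 ^ 2 ≤ R * L ^ 2 := Nat.mul_le_mul_left _ h1
    omega
  obtain ⟨S, hS⟩ : ∃ S, S = (Icc 1 X).filter fun m : ℕ => ∀ q : ℕ, q.Prime → q ∣ (m - 1)! + 1 →
      (q : ℝ) ≤ m + m / Real.log m ^ (5 * K + 10) := ⟨_, rfl⟩
  rw [← hS]
  obtain ⟨b1, b2, hb, hb1, hb2⟩ := count K X R x0 L hK
    ((S.filter fun m => x0 < m).image fun m => m - 1)
    (by
      intro n hn
      obtain ⟨m, hm, rfl⟩ := mem_image.1 hn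
      obtain ⟨hm1, hm2⟩ := mem_filter.1 hm
      rw [hS] at hm1
      obtain ⟨hm3, hm4⟩ := mem_filter.1 hm1
      have hm5 := mem_Icc.1 hm3
      refine ⟨by omega, by omega, fun q hq hd => ?_⟩
      have h1 := hm4 q hq hd
      have h2 := hlog m (hpw 4 (by omega)) (hx0 ▸ hm2)
      have hLR : (0 : ℝ) < (L : ℝ) ^ (5 * K + 9) := by exact_mod_cast hLA
      have h3 : (m : ℝ) / Real.log m ^ (5 * K + 10) ≤ X / (L : ℝ) ^ (5 * K + 9) :=
        div_le_div₀ (Nat.cast_nonneg _) (by exact_mod_cast hm5.2) hLR h2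
      have h4 : (X : ℝ) / (L : ℝ) ^ (5 * K + 9) < R := by
        rw [div_lt_iff₀ hLR]
        have : X < R * L ^ (5 * K + 9) := (Nat.div_lt_iff_lt_mul hLA).1 (by omega)
        exact_mod_cast this
      have h5 : q < m + R := by
        have : (q : ℝ) < m + R := by linarith
        exact_mod_cast this
      omega)
    (by omega) H1 hx1
  have hcard : S.card ≤ x0 + (b1 + b2) := by
    rw [← hb, ← card_filter_add_card_filter_not (s := S) (fun m => x0 < m), add_comm,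
      Finset.card_image_of_injOn]
    · refine Nat.add_le_add_right ?_ _
      calc _ ≤ (Icc 1 x0).card := by
            refine card_le_card fun m hm => ?_
            obtain ⟨h1, h2⟩ := mem_filter.1 hm
            rw [hS] at h1
            exact mem_Icc.2 ⟨(mem_Icc.1 (mem_filter.1 h1).1).1, by omega⟩
        _ = x0 := by simp
    · intro m hm m' hm' he
      have h1 := (mem_filter.1 hm).2
      have h2 := (mem_filter.1 hm').2
      simp only at he
      omega
  have hQ := pi_add_le X R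
  rw [← hP] at hQ
  have hb3 : b2 * L ≤ 16 * P := by
    have hpos : 0 < x0 * L ^ 2 := by omega
    refine Nat.le_of_mul_le_mul_right (c := x0 * L ^ 2) ?_ hpos
    calc b2 * L * (x0 * L ^ 2) = b2 * x0 * L ^ 3 := by ring
      _ ≤ 2 * Nat.primeCounting (X + R) * R * L ^ (5 * K + 6) * L ^ 3 :=
        Nat.mul_le_mul_right _ hb2
      _ = 2 * Nat.primeCounting (X + R) * (R * L ^ (5 * K + 9)) := by ring
      _ ≤ 2 * (2 * P) * (2 * (2 * (x0 * L ^ 2))) :=
        Nat.mul_le_mul (by omega) (by omega)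
      _ = 16 * P * (x0 * L ^ 2) := by ring
  have hb4 : (K + 1) * b1 ≤ P + R := hb1.trans hQ
  have hLR : (0 : ℝ) < L := by exact_mod_cast (show 0 < L by omega)
  have hδL : 24 ≤ δ * L := by
    have := Nat.ceil_le.1 H3
    rwa [div_le_iff₀ hδ, mul_comm] at this
  have r1 : (b1 : ℝ) ≤ 1 / (K + 1) * P + R := by
    have h1 : ((K : ℝ) + 1) * b1 ≤ P + R := by exact_mod_cast hb4
    have hK0 : (0 : ℝ) ≤ K := Nat.cast_nonneg _
    have h2 : (b1 : ℝ) ≤ (P + R) / (K + 1) := by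
      rw [le_div_iff₀ (by linarith), mul_comm]; exact h1
    have h3 : (R : ℝ) / (K + 1) ≤ R := div_le_self (Nat.cast_nonneg _) (by linarith)
    rw [add_div] at h2
    rw [one_div_mul_eq_div]
    linarith
  have r2 : ((x0 : ℝ) + R + b2) * L ≤ δ * P * L := by
    have h1 : (x0 + R + b2) * L ≤ 24 * P := by rw [add_mul, add_mul]; omega
    have h2 : ((x0 : ℝ) + R + b2) * L ≤ 24 * P := by exact_mod_cast h1
    have h3 := mul_le_mul_of_nonneg_right hδL (Nat.cast_nonneg (α := ℝ) P)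
    linarith
  have r3 := le_of_mul_le_mul_right r2 hLR
  have r4 : (S.card : ℝ) ≤ x0 + (b1 + b2) := by exact_mod_cast hcard
  rw [add_mul]
  linarith

end Pool.Agent.P.MP_8e1b3573_nt
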