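import Pool.Agent.P.MP_8e1b3573_nt.TwoLog

set_option autoImplicit false

namespace Pool.Agent.P.MP_8e1b3573_nt

open Finset Nat

theorem cell_close {n D x y : ℕ} (hn : 0 < n) (h : x * D / n = y * D / n) :
    x * D < y * D + n := by
  have h1 := Nat.div_add_mod (x * D) n
  have h2 := Nat.div_add_mod (y * D) n
  have h3 := Nat.mod_lt (x * D) hn
  rw [h] at h1
  omega

/-- Simultaneous approximation of the exponent vector. -/
theorem dirichlet (K n D : ℕ) (hn : 0 < n) (hD : 0 < D) (F : Finset ℕ) (hF : F.card ≤ K)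
    (e : ℕ → ℕ) : ∃ c : ℕ, 1 ≤ c ∧ c ≤ D ^ K ∧ ∃ ci : ℕ → ℕ, ∀ q ∈ F,
      c * e q * D < n * ci q * D + n ∧ n * ci q * D < c * e q * D + n := by
  classical
  have hlt : ∀ x : ℕ, x % n * D / n < D := fun x =>
    (Nat.div_lt_iff_lt_mul hn).2 (by
      rw [mul_comm D n]; exact Nat.mul_lt_mul_of_pos_right (Nat.mod_lt _ hn) hD)
  let f : Fin (D ^ K + 1) → (F → Fin D) := fun j q => ⟨(j * e q) % n * D / n, hlt _⟩
  have hcard : Fintype.card (F → Fin D) < Fintype.card (Fin (D ^ K + 1)) := by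
    simp only [Fintype.card_fun, Fintype.card_fin, Fintype.card_coe]
    exact Nat.lt_succ_of_le (Nat.pow_le_pow_right hD hF)
  have key : ∀ j j' : Fin (D ^ K + 1), j < j' → f j = f j' →
      ∃ c : ℕ, 1 ≤ c ∧ c ≤ D ^ K ∧ ∃ ci : ℕ → ℕ, ∀ q ∈ F,
      c * e q * D < n * ci q * D + n ∧ n * ci q * D < c * e q * D + n := by
    intro j j' hjj hf
    have hj : (j : ℕ) < j' := hjj
    obtain ⟨c, hc⟩ := Nat.exists_eq_add_of_le hj.le
    have hj' := j'.2
    refine ⟨c, by omega, by omega, fun q => (j' * e q) / n - (j * e q) / n, fun q hq => ?_⟩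
    have h1 : (j * e q) % n * D / n = (j' * e q) % n * D / n :=
      congrArg Fin.val (congrFun hf ⟨q, hq⟩)
    have h2 := cell_close hn h1
    have h3 := cell_close hn h1.symm
    have h4 : (j * e q) / n ≤ (j' * e q) / n :=
      Nat.div_le_div_right (Nat.mul_le_mul_right _ hj.le)
    obtain ⟨d, hd⟩ := Nat.exists_eq_add_of_le h4
    have h5 := Nat.div_add_mod (j * e q) n
    have h6 := Nat.div_add_mod (j' * e q) n
    simp only [hd, Nat.add_sub_cancel_left]
    have h7 : (j' : ℕ) * e q = j * e q + c * e q := by rw [hc]; ring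
    have h8 : n * d + (j' * e q) % n = (j * e q) % n + c * e q := by
      rw [hd, mul_add] at h6
      omega
    have h9 : n * d * D + (j' * e q) % n * D = (j * e q) % n * D + c * e q * D := by
      rw [← add_mul, ← add_mul, h8]
    omega
  obtain ⟨j, j', hne, hf⟩ := Fintype.exists_ne_map_eq_of_card_lt f hcard
  rcases lt_or_gt_of_ne hne with h | h
  · exact key j j' h hf
  · exact key j' j h hf.symm

theorem two_pow_dvd_factorial (n : ℕ) : 2 ^ (n / 2) ∣ n ! := by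
  have h : ∀ k : ℕ, 2 ^ k ∣ (2 * k)! := by
    intro k
    induction k with
    | zero => simp
    | succ k ih =>
      have e : (2 * (k + 1))! = (2 * k)! * 2 * ((k + 1) * (2 * k + 1)) := by
        rw [show 2 * (k + 1) = (2 * k + 1) + 1 by ring, Nat.factorial_succ, Nat.factorial_succ]
        ring
      rw [e, pow_succ]
      exact Dvd.dvd.mul_right (Nat.mul_dvd_mul_right ih 2) _
  exact (h _).trans (Nat.factorial_dvd_factorial (Nat.mul_div_le n 2))

theorem prod_pow_le (F : Finset ℕ) (K lam r : ℕ) (hF : F.card ≤ K) (hq : ∀ q ∈ F, q ≤ 2 ^ lam)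
    (f : ℕ → ℕ) (hf : ∀ q ∈ F, f q ≤ r) : ∏ q ∈ F, q ^ f q ≤ 2 ^ (K * lam * r) := by
  calc ∏ q ∈ F, q ^ f q ≤ ∏ _q ∈ F, 2 ^ (lam * r) := by
        refine Finset.prod_le_prod' fun q hqF => ?_
        calc q ^ f q ≤ (2 ^ lam) ^ f q := Nat.pow_le_pow_left (hq q hqF) _
          _ ≤ (2 ^ lam) ^ r := Nat.pow_le_pow_right (by positivity) (hf q hqF)
          _ = 2 ^ (lam * r) := by rw [← pow_mul]
    _ = 2 ^ (F.card * (lam * r)) := by rw [Finset.prod_const, ← pow_mul, mul_comm]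
    _ ≤ 2 ^ (K * lam * r) := by
        refine Nat.pow_le_pow_right (by norm_num) ?_
        rw [mul_assoc]
        exact Nat.mul_le_mul_right _ hF

theorem rem_le {n D c e ci : ℕ} (hc : 1 ≤ c) (hD : 0 < D) (hci : ci ≤ c)
    (h1 : c * e * D < n * ci * D + n) (h2 : n * ci * D < c * e * D + n) :
    e - n / c * ci ≤ n / (D * c) + c ∧ n / c * ci - e ≤ n / (D * c) + c := by
  have hDc : 0 < D * c := Nat.mul_pos hD hc
  have h3 := Nat.div_add_mod n c
  have h4 := Nat.mod_lt n hc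
  obtain ⟨g, hg⟩ : ∃ g, g = n / c := ⟨_, rfl⟩
  obtain ⟨t, ht⟩ : ∃ t, t = n % c := ⟨_, rfl⟩
  rw [← hg, ← ht] at h3
  rw [← ht] at h4
  rw [← hg]
  have h5 : n * ci * D = g * ci * (D * c) + t * ci * D := by rw [← h3]; ring
  have h6 : t * ci * D ≤ c * (D * c) := by
    calc t * ci * D ≤ c * c * D := Nat.mul_le_mul_right _ (Nat.mul_le_mul h4.le hci)
      _ = c * (D * c) := by ring
  have h7 : c * e * D = e * (D * c) := by ring
  constructor
  · have : e - g * ci - c ≤ n / (D * c) := by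
      rw [Nat.le_div_iff_mul_le hDc, Nat.sub_mul, Nat.sub_mul]
      omega
    omega
  · have : g * ci - e ≤ n / (D * c) := by
      rw [Nat.le_div_iff_mul_le hDc, Nat.sub_mul]
      omega
    omega

/-- `n! + 1` is not a product of powers of few small odd numbers and a small cofactor. -/
theorem many (K n lam σ s : ℕ) (hK : 1 ≤ K) (F : Finset ℕ) (hF : F.card ≤ K) (e : ℕ → ℕ)
    (hq : ∀ q ∈ F, Odd q ∧ n < q ∧ q ≤ 2 ^ lam) (hs : s ≤ 2 ^ σ)
    (heq : n ! + 1 = (∏ q ∈ F, q ^ e q) * s) (hn : n ≤ 2 ^ lam)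
    (H1 : 4325376 * K ^ 2 ≤ lam) (H2 : lam ^ (10 * K + 5) ≤ n)
    (H3 : σ * lam ^ (5 * K + 4) ≤ n) : False := by
  classical
  have hKK : K ≤ K ^ 2 := Nat.le_self_pow (by norm_num) K
  have hlam : 4325376 ≤ lam := by omega
  have hlam0 : 0 < lam := by omega
  have hl3 : lam ^ 3 ≤ n := (Nat.pow_le_pow_right hlam0 (by omega)).trans H2
  have hn2 : 2 ≤ n := le_trans (by omega) ((Nat.le_self_pow (by norm_num) lam).trans hl3)
  have hs0 : 0 < s := by
    rcases Nat.eq_zero_or_pos s with h | h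
    · rw [h, mul_zero] at heq; omega
    · exact h
  have he : ∀ q ∈ F, e q ≤ n := by
    intro q hqF
    by_contra hc
    have h1 : q ^ e q ∣ n ! + 1 := by
      rw [heq]; exact (Finset.dvd_prod_of_mem (fun q => q ^ e q) hqF).mul_right s
    have h2 := Nat.le_of_dvd (by positivity) h1
    have h3 : (n + 1) ^ (n + 1) ≤ q ^ e q :=
      (Nat.pow_le_pow_left (hq q hqF).2.1 _).trans
        (Nat.pow_le_pow_right (by have := (hq q hqF).2.1; omega) (by omega))
    have h4 := Nat.factorial_le_pow (n + 1)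
    rw [Nat.factorial_succ] at h4
    have h5 := Nat.factorial_pos n
    nlinarith
  obtain ⟨D, hD⟩ : ∃ D, D = lam ^ 5 := ⟨_, rfl⟩
  have hD0 : 0 < D := by rw [hD]; positivity
  obtain ⟨c, hc1, hcQ, ci, hci⟩ := dirichlet K n D (by omega) hD0 F hF e
  have hcic : ∀ q ∈ F, ci q ≤ c := by
    intro q hqF
    by_contra hc
    have h1 := (hci q hqF).2
    have h2 : n * (c + 1) * D ≤ n * ci q * D :=
      Nat.mul_le_mul_right _ (Nat.mul_le_mul_left _ (by omega))
    have h3 : c * e q * D ≤ c * n * D := Nat.mul_le_mul_right _ (Nat.mul_le_mul_left _ (he q hqF))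
    have h4 : n * (c + 1) * D = c * n * D + n * D := by ring
    have h5 : n ≤ n * D := Nat.le_mul_of_pos_right _ hD0
    omega
  obtain ⟨g, hg⟩ : ∃ g, g = n / c := ⟨_, rfl⟩
  obtain ⟨ρ, hρ⟩ : ∃ ρ, ρ = n / (D * c) + c := ⟨_, rfl⟩
  have hr : ∀ q ∈ F, e q - g * ci q ≤ ρ ∧ g * ci q - e q ≤ ρ := fun q hqF => by
    rw [hg, hρ]
    exact rem_le hc1 hD0 (hcic q hqF) (hci q hqF).1 (hci q hqF).2
  obtain ⟨α, hα⟩ : ∃ α, α = ∏ q ∈ F, q ^ ci q := ⟨_, rfl⟩
  obtain ⟨u, hu⟩ : ∃ u, u = (∏ q ∈ F, q ^ (e q - g * ci q)) * s := ⟨_, rfl⟩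
  obtain ⟨v, hv⟩ : ∃ v, v = ∏ q ∈ F, q ^ (g * ci q - e q) := ⟨_, rfl⟩
  obtain ⟨a, ha⟩ : ∃ a, a = K * lam * c := ⟨_, rfl⟩
  obtain ⟨h, hh⟩ : ∃ h, h = K * lam * ρ + σ := ⟨_, rfl⟩
  have hq2 : ∀ q ∈ F, q ≤ 2 ^ lam := fun q hqF => (hq q hqF).2.2
  have hqpos : ∀ q ∈ F, 0 < q := fun q hqF => by have := (hq q hqF).2.1; omega
  have hαa : α ≤ 2 ^ a := by rw [hα, ha]; exact prod_pow_le F K lam c hF hq2 ci hcic
  have huh : u ≤ 2 ^ h := by
    rw [hu, hh, pow_add]
    exact Nat.mul_le_mul (prod_pow_le F K lam ρ hF hq2 _ fun q hqF => (hr q hqF).1) hs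
  have hvh : v ≤ 2 ^ h := by
    rw [hv, hh]
    exact (prod_pow_le F K lam ρ hF hq2 _ fun q hqF => (hr q hqF).2).trans
      (Nat.pow_le_pow_right (by norm_num) (Nat.le_add_right _ _))
  have hu0 : 0 < u := by
    rw [hu]; exact Nat.mul_pos (Finset.prod_pos fun q hqF => pow_pos (hqpos q hqF) _) hs0
  have hv0 : 0 < v := by
    rw [hv]; exact Finset.prod_pos fun q hqF => pow_pos (hqpos q hqF) _
  have hαodd : Odd α := by
    rw [hα]
    exact Finset.prod_induction _ Odd (fun x y hx hy => hx.mul hy) odd_one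
      fun q hqF => (hq q hqF).1.pow
  have hrel : α ^ g * u = v * (n ! + 1) := by
    rw [heq, hα, hu, hv, ← mul_assoc, ← mul_assoc, ← Finset.prod_pow, ← Finset.prod_mul_distrib,
      ← Finset.prod_mul_distrib]
    congr 1
    refine Finset.prod_congr rfl fun q _ => ?_
    rw [← pow_mul, ← pow_add, ← pow_add, mul_comm (ci q) g]
    congr 1
    omega
  have hKl : 1 ≤ K * lam := Nat.mul_pos hK hlam0
  have hca : c ≤ a := by rw [ha]; exact Nat.le_mul_of_pos_left _ hKl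
  have hh1 : 1 ≤ h := by
    have hρ1 : 1 ≤ ρ := by rw [hρ]; exact hc1.trans (Nat.le_add_left _ _)
    have : 1 ≤ K * lam * ρ := Nat.mul_pos hKl hρ1
    omega
  have hQ : D ^ K = lam ^ (5 * K) := by rw [hD, ← pow_mul]
  have hcρ : c * ρ ≤ n / D + c * c := by
    rw [hρ, mul_add, ← Nat.div_div_eq_div_mul]
    exact Nat.add_le_add_right (Nat.mul_div_le _ _) _
  have N1 : 135168 * (2 * lam) ^ 2 * (a * h) ≤ n / 2 := by
    have t1 : 4325376 * K * lam ^ 3 * (c * σ) ≤ n := by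
      calc 4325376 * K * lam ^ 3 * (c * σ) ≤ lam * lam ^ 3 * (lam ^ (5 * K) * σ) :=
            Nat.mul_le_mul (Nat.mul_le_mul_right _ (by omega))
              (Nat.mul_le_mul_right _ (hQ ▸ hcQ))
        _ = σ * lam ^ (5 * K + 4) := by ring
        _ ≤ n := H3
    have t2 : 4325376 * K ^ 2 * lam ^ 4 * (n / D) ≤ n := by
      calc 4325376 * K ^ 2 * lam ^ 4 * (n / D) ≤ lam * lam ^ 4 * (n / D) :=
            Nat.mul_le_mul_right _ (Nat.mul_le_mul_right _ H1)
        _ = D * (n / D) := by rw [hD]; ring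
        _ ≤ n := Nat.mul_div_le _ _
    have t3 : 4325376 * K ^ 2 * lam ^ 4 * (c * c) ≤ n := by
      calc 4325376 * K ^ 2 * lam ^ 4 * (c * c)
          ≤ lam * lam ^ 4 * (lam ^ (5 * K) * lam ^ (5 * K)) :=
            Nat.mul_le_mul (Nat.mul_le_mul_right _ H1) (Nat.mul_le_mul (hQ ▸ hcQ) (hQ ▸ hcQ))
        _ = lam ^ (10 * K + 5) := by ring
        _ ≤ n := H2
    have t4 : 4325376 * K ^ 2 * lam ^ 4 * (c * ρ) ≤ 2 * n := by
      have := Nat.mul_le_mul_left (4325376 * K ^ 2 * lam ^ 4) hcρ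
      rw [mul_add] at this
      omega
    have t5 : 8 * (135168 * (2 * lam) ^ 2 * (a * h)) =
        4325376 * K ^ 2 * lam ^ 4 * (c * ρ) + 4325376 * K * lam ^ 3 * (c * σ) := by
      rw [ha, hh]; ring
    omega
  have hbig : 512 * (2 * lam) * h * c ≤ 135168 * (2 * lam) ^ 2 * (a * h) := by
    calc 512 * (2 * lam) * h * c = (512 * (2 * lam)) * (c * h) := by ring
      _ ≤ (135168 * (2 * lam) ^ 2) * (a * h) :=
        Nat.mul_le_mul (Nat.mul_le_mul (by norm_num) (Nat.le_self_pow (by norm_num) _))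
          (Nat.mul_le_mul_right _ hca)
  have hhn : h ≤ n / 2 := by
    have : h ≤ 512 * (2 * lam) * h * c := by
      calc h = 1 * h * 1 := by ring
        _ ≤ 512 * (2 * lam) * h * c :=
          Nat.mul_le_mul (Nat.mul_le_mul_right _ (by omega)) hc1
    omega
  by_cases h1 : 1 < α
  · refine twolog α u v g a h (2 * lam) hαodd h1 hαa hu0 hv0 huh hvh hh1 (by omega) ?_ ?_ ?_
    · rw [hg, Nat.le_div_iff_mul_le hc1]
      omega
    · have t1 : a * g ≤ K * lam * n := by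
        rw [ha, hg, mul_assoc]
        exact Nat.mul_le_mul_left _ (Nat.mul_div_le _ _)
      have t2 : n ≤ K * lam * n := Nat.le_mul_of_pos_left _ hKl
      calc 528 * (2 * lam) * (h + a * g) ≤ 528 * (2 * lam) * (2 * (K * lam * n)) :=
            Nat.mul_le_mul_left _ (by omega)
        _ = (2112 * K) * lam ^ 2 * n := by ring
        _ ≤ lam * lam ^ 2 * n := Nat.mul_le_mul_right _ (Nat.mul_le_mul_right _ (by omega))
        _ = lam ^ 3 * n := by ring
        _ ≤ 2 ^ lam * 2 ^ lam := Nat.mul_le_mul (hl3.trans hn) hn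
        _ = 2 ^ (2 * lam) := by rw [← pow_add]; congr 1; ring
    · have t1 : ((α : ℤ) ^ g * u) = v * ((n ! : ℕ) + 1) := by exact_mod_cast hrel
      have t2 : (α : ℤ) ^ g * u - v = v * (n ! : ℕ) := by rw [t1]; ring
      rw [t2]
      have t3 : 2 ^ (135168 * (2 * lam) ^ 2 * (a * h)) ∣ n ! :=
        (pow_dvd_pow 2 N1).trans (two_pow_dvd_factorial n)
      exact Dvd.dvd.mul_left (by exact_mod_cast t3) _
  · have hα1 : α = 1 := by
      have := hαodd.pos
      omega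
    rw [hα1, one_pow, one_mul] at hrel
    have t1 : n ! + 1 ≤ u := by rw [hrel]; exact Nat.le_mul_of_pos_left _ hv0
    have t2 : 2 ^ (n / 2) ≤ n ! := Nat.le_of_dvd (Nat.factorial_pos n) (two_pow_dvd_factorial n)
    have t3 : 2 ^ h ≤ 2 ^ (n / 2) := Nat.pow_le_pow_right (by norm_num) hhn
    omega

end Pool.Agent.P.MP_8e1b3573_nt
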