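import Pool.Agent.P.MP_8e1b3573_nt.Many

set_option autoImplicit false

namespace Pool.Agent.P.MP_8e1b3573_nt

open Finset Nat

theorem lt_of_prime_dvd {n q : ℕ} (hq : q.Prime) (h : q ∣ n ! + 1) : n < q := by
  by_contra hc
  have h1 : q ∣ n ! := (hq.dvd_factorial).2 (by omega)
  exact hq.one_lt.ne' (Nat.dvd_one.1 ((Nat.dvd_add_right h1).1 h))

/-- A prime power dividing two shifted factorials forces a gap. -/
theorem gap {n n' q k : ℕ} (hq : q.Prime) (hn : 1 ≤ n) (hlt : n < n') (hk : 1 ≤ k)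
    (h1 : q ^ k ∣ n ! + 1) (h2 : q ^ k ∣ n' ! + 1) : n + k < n' := by
  obtain ⟨d, rfl⟩ := Nat.exists_eq_add_of_le hlt.le
  have hd : 1 ≤ d := by omega
  have hq' : n + d < q := lt_of_prime_dvd hq ((dvd_pow_self q (by omega)).trans h2)
  have e := Nat.factorial_mul_ascFactorial n d
  obtain ⟨P, hP⟩ : ∃ P, P = (n + 1).ascFactorial d := ⟨_, rfl⟩
  have hP1 : P ≤ (n + d) ^ d := hP ▸ Nat.ascFactorial_le_pow_add n d
  have hP2 : 2 ≤ P := by
    have h3 : (n + 1) ^ d ≤ P := hP ▸ Nat.pow_succ_le_ascFactorial (n + 1) d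
    have h4 : n + 1 ≤ (n + 1) ^ d := Nat.le_self_pow (by omega) _
    omega
  rw [← hP] at e
  have h3 : q ^ k ∣ P - 1 := by
    have h4 : (n ! + 1) * P = ((n + d)! + 1) + (P - 1) := by
      rw [add_mul, e]; omega
    exact (Nat.dvd_add_right h2).1 (h4 ▸ h1.mul_right P)
  have h4 := Nat.le_of_dvd (by omega) h3
  have h5 : (n + d) ^ d ≤ q ^ d := Nat.pow_le_pow_left hq'.le _
  have h6 : q ^ k < q ^ d := by omega
  have := (Nat.pow_lt_pow_iff_right hq.one_lt).1 h6
  omega

theorem card_le_of_gap (S : Finset ℕ) (q R d : ℕ) (hd : 0 < d)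
    (hS : ∀ n ∈ S, n < q ∧ q ≤ n + R) (hgap : ∀ n ∈ S, ∀ n' ∈ S, n < n' → n + d ≤ n') :
    S.card ≤ R / d + 1 := by
  have key : ∀ n ∈ S, ∀ n' ∈ S, n < n' → (q - n') / d < (q - n) / d := by
    intro n hn n' hn' hlt
    have h1 := hgap n hn n' hn' hlt
    have h2 := (hS n' hn').1
    calc (q - n') / d < (q - n') / d + 1 := Nat.lt_succ_self _
      _ = (q - n' + d) / d := (Nat.add_div_right _ hd).symm
      _ ≤ (q - n) / d := Nat.div_le_div_right (by omega)
  rw [← Finset.card_range (R / d + 1)]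
  refine Finset.card_le_card_of_injOn (fun n => (q - n) / d) (fun n hn => ?_) ?_
  · have := (hS n hn).2
    simp only [Finset.coe_range, Set.mem_Iio]
    exact Nat.lt_succ_of_le (Nat.div_le_div_right (by omega))
  · intro n hn n' hn' he
    simp only at he
    rcases lt_trichotomy n n' with h | h | h
    · have := key n hn n' hn' h; omega
    · exact h
    · have := key n' hn' n hn h; omega

theorem harm_le (R L : ℕ) (hL : 1 ≤ L) (h : R ≤ 2 ^ L) :
    ∑ k ∈ range R, R / (k + 1) ≤ 2 * R * L := by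
  rcases Nat.eq_zero_or_pos R with h0 | h0
  · subst h0; simp
  have h1 : ((∑ k ∈ range R, R / (k + 1) : ℕ) : ℝ) ≤ R * (harmonic R : ℝ) := by
    rw [harmonic]
    push_cast
    rw [Finset.mul_sum]
    refine Finset.sum_le_sum fun k _ => ?_
    have := Nat.cast_div_le (α := ℝ) (m := R) (n := k + 1)
    push_cast at this
    rwa [div_eq_mul_inv] at this
  have h2 := harmonic_le_one_add_log R
  have hR : (0 : ℝ) < R := by exact_mod_cast h0
  have h3 : Real.log R ≤ L := by
    have h4 : (R : ℝ) ≤ 2 ^ L := by exact_mod_cast h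
    have h5 := Real.log_le_log hR h4
    rw [Real.log_pow] at h5
    have h6 : Real.log 2 ≤ 1 := by have := Real.log_two_lt_d9; linarith
    have h7 : (0 : ℝ) ≤ L := Nat.cast_nonneg _
    nlinarith
  have hL' : (1 : ℝ) ≤ L := by exact_mod_cast hL
  have h4 : ((∑ k ∈ range R, R / (k + 1) : ℕ) : ℝ) ≤ ((2 * R * L : ℕ) : ℝ) := by
    refine h1.trans ?_
    push_cast
    nlinarith
  exact_mod_cast h4

/-- The exponent of `q` in `n! + 1`. -/
def V (n q : ℕ) : ℕ := (n ! + 1).factorization q

theorem pow_dvd_of_le_V {n q k : ℕ} (hq : q.Prime) (h : k ≤ V n q) : q ^ k ∣ n ! + 1 :=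
  (hq.pow_dvd_iff_le_factorization (by positivity)).2 h

theorem nonowner (B : Finset ℕ) (q R L o : ℕ) (hq : q.Prime) (hL : 1 ≤ L) (hR : R ≤ 2 ^ L)
    (hB : ∀ n ∈ B, 1 ≤ n ∧ (q ∣ n ! + 1 → q ≤ n + R)) (ho : o ∈ B)
    (hmax : ∀ n ∈ B, V n q ≤ V o q) :
    ∑ n ∈ B.erase o, V n q ≤ 2 * R * L := by
  classical
  have hwin : ∀ n ∈ B, ∀ k, k < V n q → n < q ∧ q ≤ n + R := by
    intro n hn k hk
    have h1 : q ∣ n ! + 1 := by
      have := pow_dvd_of_le_V (n := n) (k := 1) hq (by omega)
      rwa [pow_one] at this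
    exact ⟨lt_of_prime_dvd hq h1, (hB n hn).2 h1⟩
  have hgap : ∀ k, ∀ n ∈ B, ∀ n' ∈ B, k < V n q → k < V n' q → n < n' → n + (k + 1) < n' :=
    fun k n hn n' _ h1 h2 h3 => gap hq (hB n hn).1 h3 (by omega) (pow_dvd_of_le_V hq h1)
      (pow_dvd_of_le_V hq h2)
  have hVR : ∀ n ∈ B.erase o, V n q ≤ R := by
    intro n hn
    obtain ⟨hne, hnB⟩ := Finset.mem_erase.1 hn
    by_contra hc
    have h1 : R < V n q := by omega
    have h2 : R < V o q := lt_of_lt_of_le h1 (hmax n hnB)
    have h3 := hwin n hnB R h1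
    have h4 := hwin o ho R h2
    rcases lt_or_gt_of_ne hne with h | h
    · have := hgap R n hnB o ho h1 h2 h; omega
    · have := hgap R o ho n hnB h2 h1 h; omega
  have e1 : ∑ n ∈ B.erase o, V n q =
      ∑ k ∈ range R, ((B.erase o).filter fun n => k < V n q).card := by
    simp only [Finset.card_filter]
    rw [Finset.sum_comm]
    refine Finset.sum_congr rfl fun n hn => ?_
    rw [← Finset.card_filter]
    have : (range R).filter (fun k => k < V n q) = range (V n q) := by
      ext k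
      have := hVR n hn
      simp only [Finset.mem_filter, Finset.mem_range]
      omega
    rw [this, Finset.card_range]
  rw [e1]
  refine le_trans (Finset.sum_le_sum fun k _ => ?_) (harm_le R L hL hR)
  rcases ((B.erase o).filter fun n => k < V n q).eq_empty_or_nonempty with h | ⟨n, hn⟩
  · rw [h]; simp
  · obtain ⟨hn1, hn2⟩ := Finset.mem_filter.1 hn
    have hko : k < V o q := lt_of_lt_of_le hn2 (hmax n (Finset.mem_of_mem_erase hn1))
    have h1 := card_le_of_gap (B.filter fun n => k < V n q) q R (k + 1) (by omega)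
      (fun n hn => hwin n (Finset.mem_filter.1 hn).1 k (Finset.mem_filter.1 hn).2)
      (fun n hn n' hn' h => (hgap k n (Finset.mem_filter.1 hn).1 n' (Finset.mem_filter.1 hn').1
        (Finset.mem_filter.1 hn).2 (Finset.mem_filter.1 hn').2 h).le)
    rw [Finset.filter_erase, Finset.card_erase_of_mem (Finset.mem_filter.2 ⟨ho, hko⟩)]
    exact Nat.sub_le_of_le_add h1

/-- The counting statement. -/
theorem count (K X R x0 L : ℕ) (hK : 1 ≤ K) (B : Finset ℕ)
    (hB : ∀ n ∈ B, x0 ≤ n ∧ n ≤ X ∧ ∀ q, q.Prime → q ∣ n ! + 1 → q ≤ n + R)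
    (hXL : X + R ≤ 2 ^ L) (H1 : 4325376 * K ^ 2 ≤ L) (H2 : L ^ (10 * K + 5) ≤ x0) :
    ∃ b1 b2 : ℕ, B.card = b1 + b2 ∧ (K + 1) * b1 ≤ Nat.primeCounting (X + R) ∧
      b2 * x0 ≤ 2 * Nat.primeCounting (X + R) * R * L ^ (5 * K + 6) := by
  classical
  rcases B.eq_empty_or_nonempty with h | hne
  · exact ⟨0, 0, by simp [h], by simp, by simp⟩
  have hKK : K ≤ K ^ 2 := Nat.le_self_pow (by norm_num) K
  have hL : 2 ≤ L := by omega
  have hx0 : 2 ≤ x0 := hL.trans ((Nat.le_self_pow (by omega) L).trans H2)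
  choose o ho hmax using fun q => Finset.exists_max_image B (fun n => V n q) hne
  set Q : Finset ℕ := (range (X + R + 1)).filter Nat.Prime with hQ
  have hQc : Q.card = Nat.primeCounting (X + R) := by
    rw [hQ, Nat.primeCounting, Nat.primeCounting', Nat.count_eq_card_filter_range]
  rw [← hQc]
  let own : ℕ → Finset ℕ := fun n => (n ! + 1).primeFactors.filter fun q => o q = n
  have hsub : ∀ n ∈ B, (n ! + 1).primeFactors ⊆ Q := by
    intro n hn q hq
    have h1 := Nat.prime_of_mem_primeFactors hq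
    have h2 := (hB n hn).2.2 q h1 (Nat.dvd_of_mem_primeFactors hq)
    have h3 := (hB n hn).2.1
    exact Finset.mem_filter.2 ⟨Finset.mem_range.2 (by omega), h1⟩
  refine ⟨(B.filter fun n => K < (own n).card).card, (B.filter fun n => ¬ K < (own n).card).card,
    (Finset.card_filter_add_card_filter_not _).symm, ?_, ?_⟩
  · have h1 : ((B.filter fun n => K < (own n).card).biUnion own).card =
        ∑ n ∈ B.filter fun n => K < (own n).card, (own n).card := by
      refine Finset.card_biUnion fun n _ n' _ hnn => ?_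
      refine Finset.disjoint_left.2 fun q h1 h2 => hnn ?_
      exact (Finset.mem_filter.1 h1).2.symm.trans (Finset.mem_filter.1 h2).2
    have h2 : (B.filter fun n => K < (own n).card).biUnion own ⊆ Q := by
      refine Finset.biUnion_subset.2 fun n hn => ?_
      exact (Finset.filter_subset _ _).trans (hsub n (Finset.mem_filter.1 hn).1)
    have h3 := Finset.card_le_card h2
    rw [h1] at h3
    refine le_trans ?_ h3
    rw [mul_comm, ← smul_eq_mul]
    exact Finset.card_nsmul_le_sum _ _ _ fun n hn => (Finset.mem_filter.1 hn).2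
  · let w : ℕ → ℕ := fun n => ∑ q ∈ Q.filter fun q => ¬ o q = n, V n q
    have h1 : ∀ n ∈ B.filter fun n => ¬ K < (own n).card, x0 ≤ w n * L ^ (5 * K + 5) := by
      intro n hn
      obtain ⟨hnB, hnK⟩ := Finset.mem_filter.1 hn
      obtain ⟨b1, b2, b3⟩ := hB n hnB
      by_contra hc
      have hq2 : ∀ q ∈ (n ! + 1).primeFactors, q ≤ 2 ^ L := fun q hq => by
        have := b3 q (Nat.prime_of_mem_primeFactors hq) (Nat.dvd_of_mem_primeFactors hq)
        omega
      refine many K n L (L * w n)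
        (∏ q ∈ (n ! + 1).primeFactors.filter (fun q => ¬ o q = n), q ^ V n q) hK (own n)
        (by omega) (V n) (fun q hq => ?_) ?_ ?_ (by omega) H1 (H2.trans b1) ?_
      · have h2 := (Finset.mem_filter.1 hq).1
        have h3 := Nat.prime_of_mem_primeFactors h2
        have h4 := lt_of_prime_dvd h3 (Nat.dvd_of_mem_primeFactors h2)
        exact ⟨h3.odd_of_ne_two (by omega), h4, hq2 q h2⟩
      · calc ∏ q ∈ (n ! + 1).primeFactors.filter (fun q => ¬ o q = n), q ^ V n q
            ≤ ∏ q ∈ (n ! + 1).primeFactors.filter (fun q => ¬ o q = n), (2 ^ L) ^ V n q :=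
              Finset.prod_le_prod' fun q hq =>
                Nat.pow_le_pow_left (hq2 q (Finset.mem_filter.1 hq).1) _
          _ = (2 ^ L) ^ ∑ q ∈ (n ! + 1).primeFactors.filter (fun q => ¬ o q = n), V n q :=
              Finset.prod_pow_eq_pow_sum _ _ _
          _ ≤ (2 ^ L) ^ w n := Nat.pow_le_pow_right (by positivity)
              (Finset.sum_le_sum_of_subset (Finset.filter_subset_filter _ (hsub n hnB)))
          _ = 2 ^ (L * w n) := by rw [← pow_mul]
      · rw [Finset.prod_filter_mul_prod_filter_not]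
        exact (Nat.prod_factorization_pow_eq_self (n := n ! + 1) (by positivity)).symm
      · have e : L * w n * L ^ (5 * K + 4) = w n * L ^ (5 * K + 5) := by ring
        omega
    have h2 : ∑ n ∈ B, w n ≤ Q.card * (2 * R * L) := by
      have e : ∑ n ∈ B, w n = ∑ q ∈ Q, ∑ n ∈ B.erase (o q), V n q := by
        simp only [w, Finset.sum_filter]
        rw [Finset.sum_comm]
        refine Finset.sum_congr rfl fun q _ => ?_
        rw [← Finset.sum_filter, ← Finset.filter_ne]
      rw [e, ← smul_eq_mul]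
      refine Finset.sum_le_card_nsmul _ _ _ fun q hq => ?_
      have hqp := (Finset.mem_filter.1 hq).2
      exact nonowner B q R L (o q) hqp (by omega) (by omega)
        (fun n hn => ⟨by have := (hB n hn).1; omega, (hB n hn).2.2 q hqp⟩) (ho q) (hmax q)
    calc (B.filter fun n => ¬ K < (own n).card).card * x0
        ≤ ∑ n ∈ B.filter fun n => ¬ K < (own n).card, w n * L ^ (5 * K + 5) := by
          rw [← smul_eq_mul]
          exact Finset.card_nsmul_le_sum _ _ _ h1
      _ ≤ ∑ n ∈ B, w n * L ^ (5 * K + 5) :=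
          Finset.sum_le_sum_of_subset (Finset.filter_subset _ _)
      _ = (∑ n ∈ B, w n) * L ^ (5 * K + 5) := (Finset.sum_mul _ _ _).symm
      _ ≤ Q.card * (2 * R * L) * L ^ (5 * K + 5) := Nat.mul_le_mul_right _ h2
      _ = 2 * Q.card * R * L ^ (5 * K + 6) := by ring

end Pool.Agent.P.MP_8e1b3573_nt
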