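import Pool.Agent.P.MP_8e1b3573_nt.Zero

set_option autoImplicit false

namespace Pool.Agent.P.MP_8e1b3573_nt

open Finset Polynomial

/-- Expansion of `choose z k * γ ^ z` in the binomial basis. -/
theorem mahler_id (γ : ℤ) (z k : ℕ) :
    (z.choose k : ℤ) * γ ^ z = ∑ i ∈ range (z + 1),
      (z.choose i : ℤ) * ((i.choose k : ℤ) * γ ^ k * (γ - 1) ^ (i - k)) := by
  by_cases hk : k ≤ z
  · obtain ⟨w, rfl⟩ := Nat.exists_eq_add_of_le hk
    have h1 : γ ^ w = ∑ j ∈ range (w + 1), (w.choose j : ℤ) * (γ - 1) ^ j := by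
      have h2 := add_pow (γ - 1) 1 w
      rw [sub_add_cancel] at h2
      rw [h2]
      exact Finset.sum_congr rfl fun j _ => by rw [one_pow]; ring
    have h3 : k + w + 1 = k + (w + 1) := by ring
    rw [h3, Finset.sum_range_add, Finset.sum_eq_zero (s := range k), zero_add, pow_add, h1,
      Finset.mul_sum, Finset.mul_sum]
    · refine Finset.sum_congr rfl fun j hj => ?_
      have h4 : (k + w).choose (k + j) * (k + j).choose k = (k + w).choose k * w.choose j := by
        have := Nat.choose_mul (n := k + w) (k := k + j) (s := k) (by omega)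
        simpa using this
      have h5 : ((k + w).choose (k + j) : ℤ) * ((k + j).choose k : ℤ) =
          ((k + w).choose k : ℤ) * (w.choose j : ℤ) := by exact_mod_cast h4
      rw [Nat.add_sub_cancel_left]
      linear_combination (-(γ ^ k * (γ - 1) ^ j)) * h5
    · intro i hi
      rw [Nat.choose_eq_zero_of_lt (Finset.mem_range.1 hi)]
      simp
  · rw [Nat.choose_eq_zero_of_lt (by omega)]
    symm
    rw [Nat.cast_zero, zero_mul]
    refine Finset.sum_eq_zero fun i hi => ?_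
    have : i < k := by have := Finset.mem_range.1 hi; omega
    rw [Nat.choose_eq_zero_of_lt this]
    simp

/-- An auxiliary function all of whose values are divisible by `2 ^ T`. -/
theorem exists_aux (α : ℤ) (hα : Odd α) (K L T E : ℕ) (hE : T * (K + T) < E * (K * L)) :
    ∃ c : Fin K × Fin L → ℤ, c ≠ 0 ∧ (∀ x, |c x| ≤ 2 ^ E) ∧ ∀ z : ℕ,
      (2 : ℤ) ^ T ∣ ∑ x : Fin K × Fin L,
        c x * ((z.choose x.1 : ℤ) * (α ^ (x.2 : ℕ)) ^ z) := by
  classical
  let w : Fin K × Fin L → ℕ → ℤ := fun x i =>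
    (i.choose x.1 : ℤ) * (α ^ (x.2 : ℕ)) ^ (x.1 : ℕ) * (α ^ (x.2 : ℕ) - 1) ^ (i - x.1)
  have : NeZero (2 ^ T) := ⟨by positivity⟩
  let F : (Fin K × Fin L → Fin (2 ^ E)) → (Fin (K + T) → ZMod (2 ^ T)) := fun f i =>
    ((∑ x, ((f x : ℕ) : ℤ) * w x i : ℤ) : ZMod (2 ^ T))
  have hcard : Fintype.card (Fin (K + T) → ZMod (2 ^ T)) <
      Fintype.card (Fin K × Fin L → Fin (2 ^ E)) := by
    simp only [Fintype.card_fun, Fintype.card_fin, ZMod.card, Fintype.card_prod, ← pow_mul]
    exact Nat.pow_lt_pow_right (by norm_num) hE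
  obtain ⟨f, g, hfg, hF⟩ := Fintype.exists_ne_map_eq_of_card_lt F hcard
  refine ⟨fun x => ((f x : ℕ) : ℤ) - ((g x : ℕ) : ℤ), ?_, fun x => ?_, fun z => ?_⟩
  · intro h
    apply hfg
    funext x
    have h1 := congrFun h x
    simp only [Pi.zero_apply, sub_eq_zero, Nat.cast_inj] at h1
    exact Fin.ext h1
  · have h1 : ((f x : ℕ) : ℤ) < 2 ^ E := by exact_mod_cast (f x).2
    have h2 : ((g x : ℕ) : ℤ) < 2 ^ E := by exact_mod_cast (g x).2
    have h3 : (0 : ℤ) ≤ ((f x : ℕ) : ℤ) := Int.natCast_nonneg _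
    have h4 : (0 : ℤ) ≤ ((g x : ℕ) : ℤ) := Int.natCast_nonneg _
    rw [abs_le]
    constructor <;> linarith
  · have hm : ∀ i : ℕ, (2 : ℤ) ^ T ∣
        ∑ x : Fin K × Fin L, (((f x : ℕ) : ℤ) - ((g x : ℕ) : ℤ)) * w x i := by
      intro i
      by_cases hi : i < K + T
      · have h1 := congrFun hF ⟨i, hi⟩
        simp only [F] at h1
        have h2 := (ZMod.intCast_eq_intCast_iff_dvd_sub _ _ _).1 h1.symm
        simp only [sub_mul, Finset.sum_sub_distrib]
        exact_mod_cast h2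
      · refine Finset.dvd_sum fun x _ => Dvd.dvd.mul_left (Dvd.dvd.mul_left ?_ _) _
        have h1 : (2 : ℤ) ∣ α ^ (x.2 : ℕ) - 1 :=
          even_iff_two_dvd.1 (Odd.sub_odd hα.pow odd_one)
        have h2 : T ≤ i - x.1 := by have := x.1.2; omega
        exact (pow_dvd_pow 2 h2).trans (pow_dvd_pow_of_dvd h1 _)
    have e : ∑ x : Fin K × Fin L, (((f x : ℕ) : ℤ) - ((g x : ℕ) : ℤ)) *
          ((z.choose x.1 : ℤ) * (α ^ (x.2 : ℕ)) ^ z) =
        ∑ i ∈ range (z + 1), (z.choose i : ℤ) *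
          ∑ x : Fin K × Fin L, (((f x : ℕ) : ℤ) - ((g x : ℕ) : ℤ)) * w x i := by
      simp only [Finset.mul_sum]
      rw [Finset.sum_comm]
      refine Finset.sum_congr rfl fun x _ => ?_
      rw [mahler_id, Finset.mul_sum]
      exact Finset.sum_congr rfl fun i _ => by simp only [w]; ring
    rw [e]
    exact Finset.dvd_sum fun i _ => (hm i).mul_left _

/-- The polynomial with given coefficients in the binomial basis. -/
noncomputable def binP {K : ℕ} (c : Fin K → ℤ) : ℚ[X] :=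
  ∑ k : Fin K, C ((c k : ℚ) / ((k : ℕ).factorial : ℚ)) * descPochhammer ℚ k

theorem binP_eval {K : ℕ} (c : Fin K → ℤ) (z : ℕ) :
    (binP c).eval (z : ℚ) = ∑ k : Fin K, (c k : ℚ) * (z.choose k : ℚ) := by
  rw [binP, eval_finsetSum]
  refine Finset.sum_congr rfl fun k _ => ?_
  rw [eval_mul, eval_C, descPochhammer_eval_eq_descFactorial,
    Nat.descFactorial_eq_factorial_mul_choose]
  have : ((k : ℕ).factorial : ℚ) ≠ 0 := by exact_mod_cast Nat.factorial_ne_zero _
  push_cast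
  field_simp

theorem binP_natDegree {K : ℕ} (c : Fin K → ℤ) : (binP c).natDegree ≤ K - 1 := by
  refine natDegree_sum_le_of_forall_le _ _ fun k _ => ?_
  refine (natDegree_C_mul_le _ _).trans ?_
  rw [descPochhammer_natDegree]
  have := k.2
  omega

theorem binP_ne_zero {K : ℕ} (c : Fin K → ℤ) (hc : ∃ k, c k ≠ 0) : binP c ≠ 0 := by
  classical
  intro h
  have hall : ∀ n : ℕ, ∀ k : Fin K, (k : ℕ) = n → c k = 0 := by
    intro n
    induction n using Nat.strong_induction_on with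
    | _ n ih =>
      intro k hk
      have h1 := binP_eval c n
      rw [h, eval_zero, Finset.sum_eq_single k] at h1
      · rw [hk, Nat.choose_self] at h1
        simpa using h1.symm
      · intro j _ hj
        rcases lt_trichotomy (j : ℕ) n with h2 | h2 | h2
        · rw [ih j h2 j rfl]; simp
        · exact absurd (Fin.ext (h2.trans hk.symm)) hj
        · rw [Nat.choose_eq_zero_of_lt h2]; simp
      · intro hk'
        exact absurd (Finset.mem_univ _) hk'
  obtain ⟨k, hk⟩ := hc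
  exact hk (hall k k rfl)

/-- The core of the argument with free parameters. -/
theorem twolog_core (α u v b a h m K L T E R S : ℕ) (hα : Odd α) (h1 : 1 < α) (hαa : α ≤ 2 ^ a)
    (hu : 0 < u) (hv : 0 < v) (huh : u ≤ 2 ^ h) (hvh : v ≤ 2 ^ h)
    (hE : T * (K + T) < E * (K * L)) (hRb : R ≤ b) (hm : L + R + b * S ≤ 2 ^ m)
    (hsize : K + L + E + m * K + a * L * (L + R) + h * L * S < T)
    (hcount : L * (K - 1) < R * S) :
    ¬ ((2 : ℤ) ^ T ∣ (α : ℤ) ^ b * u - v) := by
  classical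
  intro hdvd
  obtain ⟨c, hc0, hcE, hc⟩ := exists_aux (α : ℤ) (by exact_mod_cast hα) K L T E hE
  have hzero : ∀ r < L + R, ∀ j < S, ∑ x : Fin K × Fin L, c x * (((r + b * j).choose x.1 : ℤ) *
      ((α : ℤ) ^ ((x.2 : ℕ) * r) * (v : ℤ) ^ ((x.2 : ℕ) * j) *
        (u : ℤ) ^ ((L - x.2) * j))) = 0 := by
    intro r hr j hj
    have hd : (2 : ℤ) ^ T ∣ ∑ x : Fin K × Fin L, c x * (((r + b * j).choose x.1 : ℤ) *
      ((α : ℤ) ^ ((x.2 : ℕ) * r) * (v : ℤ) ^ ((x.2 : ℕ) * j) *
        (u : ℤ) ^ ((L - x.2) * j))) := by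
      have h2 := (hc (r + b * j)).mul_left ((u : ℤ) ^ (L * j))
      rw [← dvd_sub_right h2, Finset.mul_sum, ← Finset.sum_sub_distrib]
      refine Finset.dvd_sum fun x _ => ?_
      have h3 : (2 : ℤ) ^ T ∣ ((α : ℤ) ^ b * u) ^ ((x.2 : ℕ) * j) - (v : ℤ) ^ ((x.2 : ℕ) * j) :=
        hdvd.trans (sub_dvd_pow_sub_pow _ _ _)
      have h4 : L * j = (x.2 : ℕ) * j + (L - x.2) * j := by
        rw [← add_mul, Nat.add_sub_cancel' x.2.2.le]
      have h5 : (u : ℤ) ^ (L * j) * (c x * (((r + b * j).choose x.1 : ℤ) *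
            ((α : ℤ) ^ (x.2 : ℕ)) ^ (r + b * j))) -
          c x * (((r + b * j).choose x.1 : ℤ) *
            ((α : ℤ) ^ ((x.2 : ℕ) * r) * (v : ℤ) ^ ((x.2 : ℕ) * j) *
              (u : ℤ) ^ ((L - x.2) * j))) =
          (c x * ((r + b * j).choose x.1 : ℤ) * (α : ℤ) ^ ((x.2 : ℕ) * r) *
            (u : ℤ) ^ ((L - x.2) * j)) *
          (((α : ℤ) ^ b * u) ^ ((x.2 : ℕ) * j) - (v : ℤ) ^ ((x.2 : ℕ) * j)) := by
        rw [h4, pow_add, mul_pow, ← pow_mul, ← pow_mul]
        have h6 : (x.2 : ℕ) * (r + b * j) = (x.2 : ℕ) * r + b * ((x.2 : ℕ) * j) := by ring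
        rw [h6, pow_add]
        ring
      rw [h5]
      exact h3.mul_left _
    refine Int.eq_zero_of_abs_lt_dvd hd ?_
    have hterm : ∀ x : Fin K × Fin L, |c x * (((r + b * j).choose x.1 : ℤ) *
        ((α : ℤ) ^ ((x.2 : ℕ) * r) * (v : ℤ) ^ ((x.2 : ℕ) * j) *
          (u : ℤ) ^ ((L - x.2) * j)))| ≤ 2 ^ (E + m * K + a * L * (L + R) + h * L * S) := by
      intro x
      have hx1 := x.1.2
      have hx2 := x.2.2
      have hz : r + b * j ≤ 2 ^ m := by
        have : b * j ≤ b * S := Nat.mul_le_mul_left b hj.le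
        omega
      have e1 : (r + b * j).choose x.1 ≤ 2 ^ (m * K) := by
        calc (r + b * j).choose x.1 ≤ (r + b * j) ^ (x.1 : ℕ) := Nat.choose_le_pow _ _
          _ ≤ (2 ^ m) ^ (x.1 : ℕ) := Nat.pow_le_pow_left hz _
          _ ≤ (2 ^ m) ^ K := Nat.pow_le_pow_right (by positivity) hx1.le
          _ = 2 ^ (m * K) := by rw [← pow_mul]
      have e2 : α ^ ((x.2 : ℕ) * r) ≤ 2 ^ (a * L * (L + R)) := by
        calc α ^ ((x.2 : ℕ) * r) ≤ (2 ^ a) ^ ((x.2 : ℕ) * r) := Nat.pow_le_pow_left hαa _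
          _ ≤ (2 ^ a) ^ (L * (L + R)) :=
            Nat.pow_le_pow_right (by positivity) (Nat.mul_le_mul hx2.le hr.le)
          _ = 2 ^ (a * L * (L + R)) := by rw [← pow_mul, mul_assoc]
      have e3 : v ^ ((x.2 : ℕ) * j) * u ^ ((L - x.2) * j) ≤ 2 ^ (h * L * S) := by
        calc v ^ ((x.2 : ℕ) * j) * u ^ ((L - x.2) * j)
            ≤ (2 ^ h) ^ ((x.2 : ℕ) * j) * (2 ^ h) ^ ((L - x.2) * j) :=
              Nat.mul_le_mul (Nat.pow_le_pow_left hvh _) (Nat.pow_le_pow_left huh _)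
          _ = (2 ^ h) ^ (L * j) := by
              rw [← pow_add, ← add_mul, Nat.add_sub_cancel' hx2.le]
          _ ≤ (2 ^ h) ^ (L * S) :=
              Nat.pow_le_pow_right (by positivity) (Nat.mul_le_mul_left L hj.le)
          _ = 2 ^ (h * L * S) := by rw [← pow_mul, mul_assoc]
      have e4 : (r + b * j).choose x.1 * (α ^ ((x.2 : ℕ) * r) * v ^ ((x.2 : ℕ) * j) *
          u ^ ((L - x.2) * j)) ≤ 2 ^ (m * K + a * L * (L + R) + h * L * S) := by
        rw [pow_add, pow_add, mul_assoc (α ^ _), mul_assoc (2 ^ _)]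
        exact Nat.mul_le_mul e1 (Nat.mul_le_mul e2 e3)
      have e5 : (((r + b * j).choose x.1 : ℤ) *
          ((α : ℤ) ^ ((x.2 : ℕ) * r) * (v : ℤ) ^ ((x.2 : ℕ) * j) *
            (u : ℤ) ^ ((L - x.2) * j))) ≤ 2 ^ (m * K + a * L * (L + R) + h * L * S) := by
        exact_mod_cast e4
      rw [abs_mul, abs_of_nonneg (a := ((r + b * j).choose x.1 : ℤ) * _) (by positivity),
        add_assoc, add_assoc, pow_add, ← add_assoc]
      exact mul_le_mul (hcE x) e5 (by positivity) (by positivity)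
    refine lt_of_le_of_lt (Finset.abs_sum_le_sum_abs _ _) ?_
    refine lt_of_le_of_lt (Finset.sum_le_sum fun x _ => hterm x) ?_
    rw [Finset.sum_const, Finset.card_univ, Fintype.card_prod, Fintype.card_fin, Fintype.card_fin,
      nsmul_eq_mul]
    have e6 : K * L ≤ 2 ^ (K + L) := by
      rw [pow_add]
      exact Nat.mul_le_mul Nat.lt_two_pow_self.le Nat.lt_two_pow_self.le
    have e7 : ((K * L : ℕ) : ℤ) ≤ 2 ^ (K + L) := by exact_mod_cast e6
    calc ((K * L : ℕ) : ℤ) * 2 ^ (E + m * K + a * L * (L + R) + h * L * S)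
        ≤ 2 ^ (K + L) * 2 ^ (E + m * K + a * L * (L + R) + h * L * S) :=
          mul_le_mul_of_nonneg_right e7 (by positivity)
      _ = 2 ^ (K + L + E + m * K + a * L * (L + R) + h * L * S) := by
          rw [← pow_add]; congr 1; ring
      _ < 2 ^ T := pow_lt_pow_right₀ (by norm_num) hsize
  have hαq : (1 : ℚ) < α := by exact_mod_cast h1
  have hG := zero_est L (K - 1) (fun l : Fin L => (α : ℚ) ^ (l : ℕ))
    (fun l l' hl => Fin.ext (pow_right_injective₀ (by linarith) hαq.ne' hl))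
    (fun l => by positivity) (fun l => binP fun k => c (k, l))
    (by
      obtain ⟨x, hx⟩ := Function.ne_iff.1 hc0
      exact ⟨x.2, binP_ne_zero _ ⟨x.1, hx⟩⟩)
    (fun l => binP_natDegree _)
    ((range R ×ˢ range S).image fun y => y.1 + b * y.2)
    (by
      intro x hx
      obtain ⟨⟨r, j⟩, hrj, rfl⟩ := Finset.mem_image.1 hx
      simp only [Finset.mem_product, Finset.mem_range] at hrj
      refine ⟨fun l => (α : ℚ) ^ ((l : ℕ) * r) * (v : ℚ) ^ ((l : ℕ) * j) *
        (u : ℚ) ^ ((L - l) * j), fun l => by positivity, fun i hi => ?_⟩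
      have h2 := hzero (r + i) (by omega) j hrj.2
      have h3 : ((∑ x : Fin K × Fin L, c x * (((r + i + b * j).choose x.1 : ℤ) *
        ((α : ℤ) ^ ((x.2 : ℕ) * (r + i)) * (v : ℤ) ^ ((x.2 : ℕ) * j) *
          (u : ℤ) ^ ((L - x.2) * j))) : ℤ) : ℚ) = 0 := by rw [h2]; simp
      rw [← h3, Fintype.sum_prod_type_right]
      push_cast
      refine Finset.sum_congr rfl fun l _ => ?_
      have h4 := binP_eval (fun k => c (k, l)) (r + b * j + i)
      push_cast at h4
      rw [h4, Finset.sum_mul, Finset.sum_mul]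
      refine Finset.sum_congr rfl fun k _ => ?_
      have h5 : r + i + b * j = r + b * j + i := by ring
      rw [h5, ← pow_mul, mul_add (l : ℕ) r i, pow_add]
      ring)
  rw [Finset.card_image_of_injOn, Finset.card_product, Finset.card_range, Finset.card_range] at hG
  · omega
  · rintro ⟨r, j⟩ hrj ⟨r', j'⟩ hrj' he
    simp only [Finset.coe_product, Finset.coe_range, Set.mem_prod, Set.mem_Iio] at hrj hrj'
    simp only at he
    have hb : 0 < b := by omega
    have e1 : (r + b * j) % b = (r' + b * j') % b := by rw [he]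
    rw [Nat.add_mul_mod_self_left, Nat.add_mul_mod_self_left, Nat.mod_eq_of_lt (by omega),
      Nat.mod_eq_of_lt (by omega)] at e1
    subst e1
    have e2 : b * j = b * j' := by omega
    rw [Nat.eq_of_mul_eq_mul_left hb e2]

/-- An elementary 2-adic bound for a linear form in two logarithms. -/
theorem twolog (α u v b a h m : ℕ) (hα : Odd α) (h1 : 1 < α) (hαa : α ≤ 2 ^ a)
    (hu : 0 < u) (hv : 0 < v) (huh : u ≤ 2 ^ h) (hvh : v ≤ 2 ^ h) (hh : 1 ≤ h) (hm : 2 ≤ m)
    (hb : 512 * m * h ≤ b) (hm2 : 528 * m * (h + a * b) ≤ 2 ^ m) :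
    ¬ ((2 : ℤ) ^ (135168 * m ^ 2 * (a * h)) ∣ (α : ℤ) ^ b * u - v) := by
  have ha : 1 ≤ a := by
    rcases Nat.eq_zero_or_pos a with h0 | h0
    · subst h0; omega
    · exact h0
  obtain ⟨K, hK⟩ : ∃ K, K = 16896 * m * (a * h) := ⟨_, rfl⟩
  have hah : 1 ≤ a * h := Nat.mul_pos ha hh
  have hKm : 16896 * m ≤ K := by rw [hK]; exact Nat.le_mul_of_pos_right _ hah
  have hT : 135168 * m ^ 2 * (a * h) = 8 * m * K := by rw [hK]; ring
  rw [hT]
  have hmK : 2 * K ≤ m * K := Nat.mul_le_mul_right K hm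
  refine twolog_core α u v b a h m K (16 * m) (8 * m * K) (K + 4 * m * K) (512 * m * h)
    (528 * m * a) hα h1 hαa hu hv huh hvh ?_ hb ?_ ?_ ?_
  · have e : (K + 4 * m * K) * (K * (16 * m)) = 8 * m * K * (K + 8 * m * K) + 8 * m * K * K := by
      ring
    have : 0 < 8 * m * K * K := by
      have : 0 < K := by omega
      positivity
    omega
  · have e1 : 16 * m ≤ 16 * m * h := Nat.le_mul_of_pos_right _ hh
    have e2 : 528 * m * (h + a * b) = 16 * m * h + 512 * m * h + b * (528 * m * a) := by ring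
    omega
  · have e1 : a * (16 * m) * (16 * m + 512 * m * h) ≤ a * (16 * m) * (528 * m * h) := by
      refine Nat.mul_le_mul_left _ ?_
      have e1 : 16 * m ≤ 16 * m * h := Nat.le_mul_of_pos_right _ hh
      have e2 : 528 * m * h = 16 * m * h + 512 * m * h := by ring
      omega
    have e2 : 2 * (a * (16 * m) * (528 * m * h)) = m * K := by rw [hK]; ring
    have e3 : 2 * (h * (16 * m) * (528 * m * a)) = m * K := by rw [hK]; ring
    have e4 : 8 * m * K = 8 * (m * K) := by ring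
    have e5 : 4 * m * K = 4 * (m * K) := by ring
    omega
  · have e1 : 512 * m * h * (528 * m * a) = 16 * m * K := by rw [hK]; ring
    rw [e1]
    exact Nat.mul_lt_mul_of_pos_left (by omega) (by omega)

end Pool.Agent.P.MP_8e1b3573_nt
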