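import Mathlib

set_option autoImplicit false

namespace Pool.Agent.P.MP_8e1b3573_nt

open Finset Polynomial

/-- Natural roots of a nonzero rational polynomial. -/
theorem card_le_natDegree (q : ℚ[X]) (hq : q ≠ 0) (G : Finset ℕ)
    (h : ∀ x ∈ G, q.eval (x : ℚ) = 0) : G.card ≤ q.natDegree := by
  classical
  refine le_trans ?_ ((Multiset.toFinset_card_le q.roots).trans (card_roots' q))
  refine Finset.card_le_card_of_injOn (fun n : ℕ => (n : ℚ)) ?_ (Nat.cast_injective.injOn)
  intro n hn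
  have h1 := h n (by simpa using hn)
  simp only [Finset.mem_coe, Multiset.mem_toFinset]
  exact (mem_roots hq).2 h1

/-- The shifted matrix. -/
noncomputable def casM {r : ℕ} (γ : Fin r → ℚ) (p : Fin r → ℚ[X]) :
    Matrix (Fin r) (Fin r) ℚ[X] :=
  Matrix.of fun i l => C (γ l ^ (i : ℕ)) * taylor ((i : ℕ) : ℚ) (p l)

theorem casM_natDegree {r : ℕ} (γ : Fin r → ℚ) (p : Fin r → ℚ[X]) (d : ℕ)
    (hd : ∀ l, (p l).natDegree ≤ d) : (casM γ p).det.natDegree ≤ r * d := by
  classical
  rw [Matrix.det_apply]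
  refine natDegree_sum_le_of_forall_le _ _ fun σ _ => ?_
  refine (natDegree_smul_le _ _).trans ((natDegree_prod_le _ _).trans ?_)
  calc ∑ i : Fin r, (casM γ p (σ i) i).natDegree ≤ ∑ _i : Fin r, d := by
        refine Finset.sum_le_sum fun i _ => ?_
        simp only [casM, Matrix.of_apply]
        refine (natDegree_C_mul_le _ _).trans ?_
        rw [natDegree_taylor]
        exact hd i
    _ = r * d := by simp

theorem casM_ne_zero {r : ℕ} (γ : Fin r → ℚ) (hγ : Function.Injective γ) (h0 : ∀ l, γ l ≠ 0)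
    (p : Fin r → ℚ[X]) (hp : ∀ l, p l ≠ 0) : (casM γ p).det ≠ 0 := by
  classical
  intro hdet
  have hc : (casM γ p).det.coeff (∑ l, (p l).natDegree) =
      (∏ l, (p l).leadingCoeff) * (Matrix.vandermonde γ).transpose.det := by
    rw [Matrix.det_apply, Matrix.det_apply, finsetSum_coeff, Finset.mul_sum]
    refine Finset.sum_congr rfl fun σ _ => ?_
    have hne : ∀ l, casM γ p (σ l) l ≠ 0 := by
      intro l
      simp only [casM, Matrix.of_apply]
      refine mul_ne_zero (C_ne_zero.2 (pow_ne_zero _ (h0 l))) ?_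
      intro h
      exact hp l ((taylor_eq_zero _ _).1 h)
    have hdeg : (∏ l, casM γ p (σ l) l).natDegree = ∑ l, (p l).natDegree := by
      rw [natDegree_prod _ _ fun l _ => hne l]
      refine Finset.sum_congr rfl fun l _ => ?_
      simp only [casM, Matrix.of_apply]
      rw [natDegree_C_mul (pow_ne_zero _ (h0 l)), natDegree_taylor]
    have hlc : (∏ l, casM γ p (σ l) l).coeff (∑ l, (p l).natDegree) =
        (∏ l, (p l).leadingCoeff) * ∏ l, γ l ^ ((σ l : Fin r) : ℕ) := by
      rw [← hdeg, coeff_natDegree, leadingCoeff_prod, ← Finset.prod_mul_distrib]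
      refine Finset.prod_congr rfl fun l _ => ?_
      simp only [casM, Matrix.of_apply]
      rw [leadingCoeff_mul, leadingCoeff_C, leadingCoeff_taylor, mul_comm]
    rw [coeff_smul, hlc]
    simp only [Matrix.transpose_apply, Matrix.vandermonde_apply]
    rw [Units.smul_def, Units.smul_def, zsmul_eq_mul, zsmul_eq_mul]
    ring
  rw [hdet, coeff_zero, Matrix.det_transpose] at hc
  have h1 : (∏ l, (p l).leadingCoeff) ≠ 0 :=
    Finset.prod_ne_zero_iff.2 fun l _ => leadingCoeff_ne_zero.2 (hp l)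
  exact mul_ne_zero h1 (Matrix.det_vandermonde_ne_zero_iff.2 hγ) hc.symm

theorem zero_fin {r : ℕ} (γ : Fin r → ℚ) (hγ : Function.Injective γ) (h0 : ∀ l, γ l ≠ 0)
    (p : Fin r → ℚ[X]) (hp : ∀ l, p l ≠ 0) (d : ℕ) (hd : ∀ l, (p l).natDegree ≤ d)
    (G : Finset ℕ) (hG : ∀ x ∈ G, ∃ y : Fin r → ℚ, y ≠ 0 ∧
      ∀ i : Fin r, ∑ l, (p l).eval (((x + i : ℕ)) : ℚ) * γ l ^ (i : ℕ) * y l = 0) :
    G.card ≤ r * d := by
  classical
  refine le_trans (card_le_natDegree _ (casM_ne_zero γ hγ h0 p hp) G fun x hx => ?_)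
    (casM_natDegree γ p d hd)
  obtain ⟨y, hy0, hy⟩ := hG x hx
  have h1 : ((casM γ p).map (evalRingHom (x : ℚ))).det = 0 := by
    refine Matrix.exists_mulVec_eq_zero_iff.1 ⟨y, hy0, ?_⟩
    funext i
    simp only [Matrix.mulVec, dotProduct, Pi.zero_apply, Matrix.map_apply, casM, Matrix.of_apply,
      coe_evalRingHom, eval_mul, eval_C, taylor_eval]
    rw [← hy i]
    refine Finset.sum_congr rfl fun l _ => ?_
    push_cast
    ring
  have h2 := (evalRingHom (x : ℚ)).map_det (casM γ p)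
  rw [RingHom.mapMatrix_apply, h1] at h2
  simpa using h2

/-- Zero estimate: not all `p l` vanish, and at each point of `G` there are `L` consecutive
relations. -/
theorem zero_est (L d : ℕ) (γ : Fin L → ℚ) (hγ : Function.Injective γ) (h0 : ∀ l, γ l ≠ 0)
    (p : Fin L → ℚ[X]) (hp : ∃ l, p l ≠ 0) (hd : ∀ l, (p l).natDegree ≤ d)
    (G : Finset ℕ) (hG : ∀ x ∈ G, ∃ y : Fin L → ℚ, (∀ l, y l ≠ 0) ∧
      ∀ i < L, ∑ l, (p l).eval (((x + i : ℕ)) : ℚ) * γ l ^ i * y l = 0) :
    G.card ≤ L * d := by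
  classical
  set s : Finset (Fin L) := univ.filter fun l => p l ≠ 0 with hs
  have hsL : s.card ≤ L := by
    simpa using Finset.card_le_univ s
  let e : Fin s.card ≃ s := s.equivFin.symm
  have hmem : ∀ j, p (e j) ≠ 0 := fun j => (Finset.mem_filter.1 (e j).2).2
  have h1 : G.card ≤ s.card * d := by
    refine zero_fin (fun j => γ (e j)) (fun j j' h => e.injective (Subtype.ext (hγ h)))
      (fun j => h0 _) (fun j => p (e j)) hmem d (fun j => hd _) G fun x hx => ?_
    obtain ⟨y, hy0, hy⟩ := hG x hx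
    refine ⟨fun j => y (e j), ?_, fun i => ?_⟩
    · obtain ⟨l, hl⟩ := hp
      intro h
      exact hy0 _ (congrFun h (e.symm ⟨l, by simp [hs, hl]⟩))
    · have h2 := hy i (lt_of_lt_of_le i.2 hsL)
      rw [← h2, Equiv.sum_comp e
        (fun l : s => (p l).eval (((x + i : ℕ)) : ℚ) * γ l ^ (i : ℕ) * y l),
        Finset.sum_coe_sort s (fun l => (p l).eval (((x + i : ℕ)) : ℚ) * γ l ^ (i : ℕ) * y l)]
      refine Finset.sum_subset (Finset.subset_univ _) fun l _ hl => ?_
      have : p l = 0 := by simpa [hs] using hl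
      simp [this]
  exact h1.trans (Nat.mul_le_mul_right d hsL)

end Pool.Agent.P.MP_8e1b3573_nt
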